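import Mathlib
import Pool.Agent.H23.SevMain
import Pool.Agent.H23.PrimeChk

/-!
# A two-parameter family with rank seven and Selmer rank seven

Let `p`, `q` be primes with `p ≡ q ≡ 3 (mod 8)` and `p + q ≡ 14 (mod 16)` such that ten further
linear forms in `p`, `q` take prime values (up to sign and a factor `2`), and assume one explicit
condition on Jacobi symbols of the primes `7, 11, 13, 17, 19, 23`. Then the curve
`y² = x³ + a x² + b x` with `a = -91205 A`, `b = 4 A R`,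
`4 A = p q (9 p + q) (95013 p + 43681 q)`,
`4 R = (425 p + 209 q) (50301 p + 5225 q) (22356 p + 209 q) (153 p + 836 q)`
has Mordell-Weil rank exactly `7`, and the two groups of everywhere locally soluble classes have
orders `2 ^ 5` and `2 ^ 4`, so `s = 5 + 4 - 2 = 7`.

The sets below are, word for word, the ones of the statement of the question.
-/

set_option autoImplicit false

namespace Pool.Agent.Results.MP_e2b281_nt.RankSevenFamily

open Pool.Agent.H23 Pool.Agent.H23.Seven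

theorem result (p q : ℕ) (hp : p.Prime) (hq : q.Prime)
    (hp8 : p % 8 = 3) (hq8 : q % 8 = 3) (hpq : (p + q) % 16 = 14)
    (h1 : ((9 * p + q) / 2).Prime) (h2 : ((95013 * p + 43681 * q) / 2).Prime)
    (h3 : ((425 * p + 209 * q) / 2).Prime) (h4 : ((50301 * p + 5225 * q) / 2).Prime)
    (h5 : (22356 * p + 209 * q).Prime) (h6 : (153 * p + 836 * q).Prime)
    (h7 : (31671 * p + 7744 * q).Prime) (h8 : (1728 * p + 361 * q).Prime)
    (h9 : ((675 * (p : ℤ) - 121 * q) / 2).natAbs.Prime)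
    (h10 : ((31671 * (p : ℤ) - 9025 * q) / 2).natAbs.Prime)
    (hJ : (jacobiSym 391 q = -1 ∧
        jacobiSym 13 ((9 * p + q) / 2) * jacobiSym 19 p * jacobiSym 23 q = -1) ∨
      (jacobiSym 391 q = 1 ∧
        jacobiSym 7 ((9 * p + q) / 2) * jacobiSym 11 p * jacobiSym 23 q = -1))
    (A R a b : ℤ) (hA : 4 * A = p * q * (9 * p + q) * (95013 * p + 43681 * q))
    (hR : 4 * R = (425 * p + 209 * q) * (50301 * p + 5225 * q) * (22356 * p + 209 * q) *
      (153 * p + 836 * q))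
    (ha : a = -91205 * A) (hb : b = 4 * (A * R)) :
    b ≠ 0 ∧ a ^ 2 - 4 * b ≠ 0 ∧
    Module.finrank ℤ
      (({ a₁ := 0, a₂ := (a : ℚ), a₃ := 0, a₄ := (b : ℚ), a₆ := 0 } :
        WeierstrassCurve ℚ).toAffine.Point) = 7 ∧
    {b₁ : ℤ | Squarefree b₁ ∧ b₁ ∣ b ∧
      (∃ N M e : ℝ, (M ≠ 0 ∨ e ≠ 0) ∧
        N ^ 2 = (b₁ : ℝ) * M ^ 4 + (a : ℝ) * M ^ 2 * e ^ 2 + ((b / b₁ : ℤ) : ℝ) * e ^ 4) ∧
      ∀ (p : ℕ) [Fact p.Prime], ∃ N M e : Padic p, (M ≠ 0 ∨ e ≠ 0) ∧
        N ^ 2 = (b₁ : Padic p) * M ^ 4 + (a : Padic p) * M ^ 2 * e ^ 2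
          + ((b / b₁ : ℤ) : Padic p) * e ^ 4}.ncard = 2 ^ 5 ∧
    {b₁ : ℤ | Squarefree b₁ ∧ b₁ ∣ (a ^ 2 - 4 * b) ∧
      (∃ N M e : ℝ, (M ≠ 0 ∨ e ≠ 0) ∧
        N ^ 2 = (b₁ : ℝ) * M ^ 4 + ((-2 * a : ℤ) : ℝ) * M ^ 2 * e ^ 2
          + (((a ^ 2 - 4 * b) / b₁ : ℤ) : ℝ) * e ^ 4) ∧
      ∀ (p : ℕ) [Fact p.Prime], ∃ N M e : Padic p, (M ≠ 0 ∨ e ≠ 0) ∧
        N ^ 2 = (b₁ : Padic p) * M ^ 4 + ((-2 * a : ℤ) : Padic p) * M ^ 2 * e ^ 2
          + (((a ^ 2 - 4 * b) / b₁ : ℤ) : Padic p) * e ^ 4}.ncard = 2 ^ 4 := by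
  obtain ⟨w, hw⟩ : ∃ w : ℤ, (q : ℤ) = p + 2 * w := ⟨((q : ℤ) - p) / 2, by omega⟩
  have k1 : (((9 * p + q) / 2 : ℕ) : ℤ) = 5 * p + w := by omega
  have k2 : (((95013 * p + 43681 * q) / 2 : ℕ) : ℤ) = 69347 * p + 43681 * w := by omega
  have k3 : (((425 * p + 209 * q) / 2 : ℕ) : ℤ) = 317 * p + 209 * w := by omega
  have k4 : (((50301 * p + 5225 * q) / 2 : ℕ) : ℤ) = 27763 * p + 5225 * w := by omega
  have k5 : ((22356 * p + 209 * q : ℕ) : ℤ) = 22565 * p + 418 * w := by push_cast; rw [hw]; ring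
  have k6 : ((153 * p + 836 * q : ℕ) : ℤ) = 989 * p + 1672 * w := by push_cast; rw [hw]; ring
  have k7 : ((31671 * p + 7744 * q : ℕ) : ℤ) = 39415 * p + 15488 * w := by
    push_cast; rw [hw]; ring
  have k8 : ((1728 * p + 361 * q : ℕ) : ℤ) = 2089 * p + 722 * w := by push_cast; rw [hw]; ring
  let D : Dat :=
    { p := p, q := q, A3 := (9 * p + q) / 2, A4 := (95013 * p + 43681 * q) / 2,
      R1 := (425 * p + 209 * q) / 2, R2 := (50301 * p + 5225 * q) / 2,
      R3 := 22356 * p + 209 * q, R4 := 153 * p + 836 * q, S1 := 31671 * p + 7744 * q,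
      S2 := 1728 * p + 361 * q, s3 := ((675 * (p : ℤ) - 121 * q) / 2).natAbs,
      s4 := ((31671 * (p : ℤ) - 9025 * q) / 2).natAbs, w := w, pp := hp, pq := hq, pA3 := h1,
      pA4 := h2, pR1 := h3, pR2 := h4, pR3 := h5, pR4 := h6, pS1 := h7, pS2 := h8, ps3 := h9,
      ps4 := h10, eq := hw, eA3 := k1, eA4 := k2, eR1 := k3, eR2 := k4, eR3 := k5, eR4 := k6,
      eS1 := k7, eS2 := k8, es3 := by omega, es4 := by omega, c8 := hp8, cw := by omega,
      ct := hJ }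
  have hA' : A = D.p * D.q * D.A3 * D.A4 := by
    have : 4 * A = 4 * (p * q * (5 * p + w) * (69347 * p + 43681 * w)) := by
      rw [hA, hw]; ring
    have h := mul_left_cancel₀ (by norm_num : (4 : ℤ) ≠ 0) this
    rw [h, ← k1, ← k2]
  have hR' : R = D.R1 * D.R2 * D.R3 * D.R4 := by
    have : 4 * R = 4 * ((317 * p + 209 * w) * (27763 * p + 5225 * w) * (22565 * p + 418 * w) *
        (989 * p + 1672 * w)) := by
      rw [hR, hw]; ring
    have h := mul_left_cancel₀ (by norm_num : (4 : ℤ) ≠ 0) this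
    rw [h, ← k3, ← k4, ← k5, ← k6]
  have ha' : a = D.a := by rw [ha, hA', Dat.a]
  have hb' : b = D.b := by rw [hb, hA', hR', Dat.b]
  rw [ha', hb']
  obtain ⟨m1, m2, m3⟩ := D.main
  exact ⟨D.b_ne, D.disc_ne, m1, m2, m3⟩

theorem prime_P1 : Nat.Prime 340811 :=
  prime_of_chk 9 (by norm_num) (by norm_num) (by norm_num) (by decide +kernel)

theorem prime_P2 : Nat.Prime 5904879269 :=
  prime_of_chk 16 (by norm_num) (by norm_num) (by norm_num) (by decide +kernel)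

theorem prime_P3 : Nat.Prime 27360947 :=
  prime_of_chk 12 (by norm_num) (by norm_num) (by norm_num) (by decide +kernel)

theorem prime_P4 : Nat.Prime 1879441717 :=
  prime_of_chk 15 (by norm_num) (by norm_num) (by norm_num) (by decide +kernel)

theorem prime_P5 : Nat.Prime 1376262023 :=
  prime_of_chk 15 (by norm_num) (by norm_num) (by norm_num) (by decide +kernel)

theorem prime_P6 : Nat.Prime 125666903 :=
  prime_of_chk 13 (by norm_num) (by norm_num) (by norm_num) (by decide +kernel)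

theorem prime_P7 : Nat.Prime 2987132293 :=
  prime_of_chk 15 (by norm_num) (by norm_num) (by norm_num) (by decide +kernel)

theorem prime_P8 : Nat.Prime 154411603 :=
  prime_of_chk 13 (by norm_num) (by norm_num) (by norm_num) (by decide +kernel)

theorem prime_P9 : Nat.Prime 11910307 :=
  prime_of_chk 11 (by norm_num) (by norm_num) (by norm_num) (by decide +kernel)

theorem prime_P10 : Nat.Prime 325680757 :=
  prime_of_chk 14 (by norm_num) (by norm_num) (by norm_num) (by decide +kernel)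

/-- The hypotheses can be met: `p = 60259`, `q = 139291`. -/
theorem nonvacuous : ∃ p q : ℕ, p.Prime ∧ q.Prime ∧ p % 8 = 3 ∧ q % 8 = 3 ∧ (p + q) % 16 = 14 ∧
    ((9 * p + q) / 2).Prime ∧ ((95013 * p + 43681 * q) / 2).Prime ∧
    ((425 * p + 209 * q) / 2).Prime ∧ ((50301 * p + 5225 * q) / 2).Prime ∧
    (22356 * p + 209 * q).Prime ∧ (153 * p + 836 * q).Prime ∧
    (31671 * p + 7744 * q).Prime ∧ (1728 * p + 361 * q).Prime ∧
    ((675 * (p : ℤ) - 121 * q) / 2).natAbs.Prime ∧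
    ((31671 * (p : ℤ) - 9025 * q) / 2).natAbs.Prime ∧
    ((jacobiSym 391 q = -1 ∧
        jacobiSym 13 ((9 * p + q) / 2) * jacobiSym 19 p * jacobiSym 23 q = -1) ∨
      (jacobiSym 391 q = 1 ∧
        jacobiSym 7 ((9 * p + q) / 2) * jacobiSym 11 p * jacobiSym 23 q = -1)) :=
  ⟨60259, 139291, by norm_num, by norm_num, by norm_num, by norm_num, by norm_num,
    prime_P1, prime_P2, prime_P3, prime_P4, prime_P5, prime_P6, prime_P7, prime_P8, prime_P9,
    prime_P10, Or.inr ⟨by norm_num, by norm_num⟩⟩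

end Pool.Agent.Results.MP_e2b281_nt.RankSevenFamily
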