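import Mathlib
import Pool.Agent.H23.SixMain

/-!
# A two-parameter family with rank six and Selmer rank six

For primes `p`, `q` in suitable residue classes modulo `840` such that ten further linear forms in
`p`, `q` take prime values, the curve `y² = x³ + a x² + b x` with
`a = -325 A`, `b = 4 A R`, `A = p q (18 p + 7 q) (108 p + 77 q)`,
`R = (72 p + 77 q) (27 p + 7 q) (54 p + 11 q) (36 p + 49 q)` has Mordell-Weil rank exactly `6`, and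
both groups of everywhere locally soluble classes have order `2 ^ 4`, so `s = 4 + 4 - 2 = 6`.

The sets below are, word for word, the ones of the statement of the question.
-/

set_option autoImplicit false

namespace Pool.Agent.Results.MP_e2b281_nt.RankSixFamily

open Pool.Agent.H23 Pool.Agent.H23.Six

theorem result (p q : ℕ) (hp : p.Prime) (hq : q.Prime)
    (hcl : (p % 24 = 11 ∧ q % 24 = 11 ∧ p * q % 5 = 2 ∧ (p % 7 = 3 ∨ p % 7 = 5 ∨ p % 7 = 6)) ∨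
      (p % 24 = 7 ∧ q % 24 = 7 ∧ p * q % 5 = 3 ∧ (p % 7 = 1 ∨ p % 7 = 2 ∨ p % 7 = 4)))
    (h1 : (18 * p + 7 * q).Prime) (h2 : (108 * p + 77 * q).Prime)
    (h3 : (72 * p + 77 * q).Prime) (h4 : ((27 * p + 7 * q) / 2).Prime)
    (h5 : (54 * p + 11 * q).Prime) (h6 : (36 * p + 49 * q).Prime)
    (h7 : (128 * p + 77 * q).Prime) (h8 : (243 * p + 112 * q).Prime)
    (h9 : (54 * (p : ℤ) - 11 * q).natAbs.Prime) (h10 : (36 * (p : ℤ) - 49 * q).natAbs.Prime)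
    (a b : ℤ) (ha : a = -325 * (p * q * (18 * p + 7 * q) * (108 * p + 77 * q)))
    (hb : b = 4 * (p * q * (18 * p + 7 * q) * (108 * p + 77 * q)) *
      ((72 * p + 77 * q) * (27 * p + 7 * q) * (54 * p + 11 * q) * (36 * p + 49 * q))) :
    b ≠ 0 ∧ a ^ 2 - 4 * b ≠ 0 ∧
    Module.finrank ℤ
      (({ a₁ := 0, a₂ := (a : ℚ), a₃ := 0, a₄ := (b : ℚ), a₆ := 0 } :
        WeierstrassCurve ℚ).toAffine.Point) = 6 ∧
    {b₁ : ℤ | Squarefree b₁ ∧ b₁ ∣ b ∧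
      (∃ N M e : ℝ, (M ≠ 0 ∨ e ≠ 0) ∧
        N ^ 2 = (b₁ : ℝ) * M ^ 4 + (a : ℝ) * M ^ 2 * e ^ 2 + ((b / b₁ : ℤ) : ℝ) * e ^ 4) ∧
      ∀ (p : ℕ) [Fact p.Prime], ∃ N M e : Padic p, (M ≠ 0 ∨ e ≠ 0) ∧
        N ^ 2 = (b₁ : Padic p) * M ^ 4 + (a : Padic p) * M ^ 2 * e ^ 2
          + ((b / b₁ : ℤ) : Padic p) * e ^ 4}.ncard = 2 ^ 4 ∧
    {b₁ : ℤ | Squarefree b₁ ∧ b₁ ∣ (a ^ 2 - 4 * b) ∧
      (∃ N M e : ℝ, (M ≠ 0 ∨ e ≠ 0) ∧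
        N ^ 2 = (b₁ : ℝ) * M ^ 4 + ((-2 * a : ℤ) : ℝ) * M ^ 2 * e ^ 2
          + (((a ^ 2 - 4 * b) / b₁ : ℤ) : ℝ) * e ^ 4) ∧
      ∀ (p : ℕ) [Fact p.Prime], ∃ N M e : Padic p, (M ≠ 0 ∨ e ≠ 0) ∧
        N ^ 2 = (b₁ : Padic p) * M ^ 4 + ((-2 * a : ℤ) : Padic p) * M ^ 2 * e ^ 2
          + (((a ^ 2 - 4 * b) / b₁ : ℤ) : Padic p) * e ^ 4}.ncard = 2 ^ 4 := by
  have hodd : 2 ∣ 27 * p + 7 * q := by
    rcases hcl with ⟨c1, c2, -⟩ | ⟨c1, c2, -⟩ <;> omega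
  have h24 : (27 * p + 7 * q) = 2 * ((27 * p + 7 * q) / 2) := (Nat.mul_div_cancel' hodd).symm
  have c5 : ∀ r : ℕ, p * q % 5 = r → (p % 5) * (q % 5) % 5 = r := by
    intro r h; rw [← Nat.mul_mod]; exact h
  have hp5 : p % 5 = 0 ∨ p % 5 = 1 ∨ p % 5 = 2 ∨ p % 5 = 3 ∨ p % 5 = 4 := by omega
  have hq5 : q % 5 = 0 ∨ q % 5 = 1 ∨ q % 5 = 2 ∨ q % 5 = 3 ∨ q % 5 = 4 := by omega
  obtain ⟨k, H24, H5, H7⟩ : ∃ k : Bool,
      ((k = false ∧ p % 24 = 11 ∧ q % 24 = 11) ∨ (k = true ∧ p % 24 = 7 ∧ q % 24 = 7)) ∧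
      ((k = false ∧ ((p % 5 = 1 ∧ q % 5 = 2) ∨ (p % 5 = 2 ∧ q % 5 = 1) ∨
        (p % 5 = 3 ∧ q % 5 = 4) ∨ (p % 5 = 4 ∧ q % 5 = 3))) ∨
      (k = true ∧ ((p % 5 = 1 ∧ q % 5 = 3) ∨ (p % 5 = 2 ∧ q % 5 = 4) ∨
        (p % 5 = 3 ∧ q % 5 = 1) ∨ (p % 5 = 4 ∧ q % 5 = 2)))) ∧
      ((k = false ∧ (p % 7 = 3 ∨ p % 7 = 5 ∨ p % 7 = 6)) ∨
        (k = true ∧ (p % 7 = 1 ∨ p % 7 = 2 ∨ p % 7 = 4))) := by
    rcases hcl with ⟨c1, c2, c3, c4⟩ | ⟨c1, c2, c3, c4⟩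
    · refine ⟨false, Or.inl ⟨rfl, c1, c2⟩, Or.inl ⟨rfl, ?_⟩, Or.inl ⟨rfl, c4⟩⟩
      have := c5 2 c3
      rcases hp5 with h | h | h | h | h <;> rcases hq5 with h' | h' | h' | h' | h' <;>
        rw [h, h'] at this <;> clear c5 hodd h24 ha hb <;> omega
    · refine ⟨true, Or.inr ⟨rfl, c1, c2⟩, Or.inr ⟨rfl, ?_⟩, Or.inr ⟨rfl, c4⟩⟩
      have := c5 3 c3
      rcases hp5 with h | h | h | h | h <;> rcases hq5 with h' | h' | h' | h' | h' <;>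
        rw [h, h'] at this <;> clear c5 hodd h24 ha hb <;> omega
  let D : Dat :=
    { p := p, q := q, A3 := 18 * p + 7 * q, A4 := 108 * p + 77 * q, R1 := 72 * p + 77 * q,
      P2 := (27 * p + 7 * q) / 2, R3 := 54 * p + 11 * q, R4 := 36 * p + 49 * q,
      S1 := 128 * p + 77 * q, S2 := 243 * p + 112 * q, s3 := (54 * (p : ℤ) - 11 * q).natAbs,
      s4 := (36 * (p : ℤ) - 49 * q).natAbs, k := k, pp := hp, pq := hq, pA3 := h1, pA4 := h2,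
      pR1 := h3, pP2 := h4, pR3 := h5, pR4 := h6, pS1 := h7, pS2 := h8, ps3 := h9, ps4 := h10,
      eA3 := rfl, eA4 := rfl, eR1 := rfl, eP2 := h24, eR3 := rfl, eR4 := rfl, eS1 := rfl,
      eS2 := rfl, es3 := by omega, es4 := by omega, c24 := H24, c5 := H5, c7 := H7 }
  have h24' : ((27 * p + 7 * q : ℕ) : ℤ) = 2 * (((27 * p + 7 * q) / 2 : ℕ) : ℤ) := by
    exact_mod_cast h24
  have ha' : a = D.a := by
    rw [ha]
    simp only [D, Dat.a]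
    push_cast
    ring
  have hb' : b = D.b := by
    rw [hb]
    simp only [D, Dat.b]
    push_cast at h24'
    push_cast
    linear_combination (4 * (p * q * (18 * p + 7 * q) * (108 * p + 77 * q) *
      ((72 * p + 77 * q) * (54 * p + 11 * q) * (36 * p + 49 * q))) : ℤ) * h24'
  rw [ha', hb']
  obtain ⟨m1, m2, m3⟩ := D.main
  exact ⟨D.b_ne, D.disc_ne, m1, m2, m3⟩

/-- The hypotheses can be met: `p = 49207`, `q = 2239`. -/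
theorem nonvacuous : ∃ p q : ℕ, p.Prime ∧ q.Prime ∧
    ((p % 24 = 11 ∧ q % 24 = 11 ∧ p * q % 5 = 2 ∧ (p % 7 = 3 ∨ p % 7 = 5 ∨ p % 7 = 6)) ∨
      (p % 24 = 7 ∧ q % 24 = 7 ∧ p * q % 5 = 3 ∧ (p % 7 = 1 ∨ p % 7 = 2 ∨ p % 7 = 4))) ∧
    (18 * p + 7 * q).Prime ∧ (108 * p + 77 * q).Prime ∧ (72 * p + 77 * q).Prime ∧
    ((27 * p + 7 * q) / 2).Prime ∧ (54 * p + 11 * q).Prime ∧ (36 * p + 49 * q).Prime ∧
    (128 * p + 77 * q).Prime ∧ (243 * p + 112 * q).Prime ∧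
    (54 * (p : ℤ) - 11 * q).natAbs.Prime ∧ (36 * (p : ℤ) - 49 * q).natAbs.Prime := by
  refine ⟨49207, 2239, ?_, ?_, ?_, ?_, ?_, ?_, ?_, ?_, ?_, ?_, ?_, ?_, ?_⟩
  · norm_num
  · norm_num
  · right; norm_num
  · norm_num
  · norm_num
  · norm_num
  · norm_num
  · norm_num
  · norm_num
  · norm_num
  · norm_num
  · rw [show (54 * ((49207 : ℕ) : ℤ) - 11 * ((2239 : ℕ) : ℤ)).natAbs = 2632549 from by rfl]
    norm_num
  · rw [show (36 * ((49207 : ℕ) : ℤ) - 49 * ((2239 : ℕ) : ℤ)).natAbs = 1661741 from by rfl]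
    norm_num

end Pool.Agent.Results.MP_e2b281_nt.RankSixFamily
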