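import Pool.Agent.GNC.FIN
import Pool.Agent.GNC.JNV
import Pool.Agent.GNC.EXM

/-!
# Rank zero with arbitrarily large even 2-isogeny Selmer rank in thin families of twists

Let `e` be squarefree, congruent to 2 or 5 modulo 8, and `a² + b² = e g²` with `a ≠ b` positive and
coprime. If the curve `y² = x (x - e a²) (x + e b²)` has 2-isogeny Selmer rank zero (Selmer groups of
orders 4 and 1), consider its twists `y² = x (x - e a² m) (x + e b² m)` by the squarefree
`m = 1 mod 8` all of whose prime factors `p` are 1 or 7 modulo 8 and have all prime factors of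
`e a b g` as squares modulo `p`. For every `K`, the members of rank `0` for which the 2-isogeny Selmer
rank `s = f₁ + f₂ - 2` is even, at least `K`, and equal to the number of prime factors 7 modulo 8,
have lower density at least `(1 - 1/2)(1 - 1/4)(1 - 1/8)...` in the family. The `j`-invariant is not
an integer, so these curves have no complex multiplication. The hypothesis holds for
`(e, a, b, g) = (v² + 4, 2, v, 1)` if `v² + 4` is prime and all primes of `v` are 3 modulo 4.
-/

namespace Pool.Agent.Results.MP_e2b281_nt.ThinFamilyGeneral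

open Pool.Agent.H23 Filter

/-- The coefficient `a` of `y² = x (x - e a² m) (x + e b² m)`. -/
def A (e a b m : ℕ) : ℤ := m * e * ((b : ℤ) ^ 2 - (a : ℤ) ^ 2)

/-- The coefficient `b` of `y² = x (x - e a² m) (x + e b² m)`. -/
def B (e a b m : ℕ) : ℤ := -((e : ℤ) * a * b * m) ^ 2

/-- The squarefree `m` with `1 < m ≤ X`, `m = 1` modulo 8, all of whose prime factors `p` are 1 or 7
modulo 8 and have all prime factors of `e a b g` as quadratic residues. -/
def fam (e a b g X : ℕ) : Finset ℕ :=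
  (Finset.Ioc 1 X).filter fun m =>
    m % 8 = 1 ∧ Squarefree m ∧ ∀ p ∈ m.primeFactors, (p % 8 = 1 ∨ p % 8 = 7) ∧
      ∀ q ∈ (e * a * b * g).primeFactors, jacobiSym (q : ℤ) p = 1

/-- The number of prime factors congruent to 7 modulo 8. -/
def num7 (m : ℕ) : ℕ := (m.primeFactors.filter fun p => p % 8 = 7).card

open Classical in
/-- Members of the family for which `y² = x³ + A x² + B x` has rank `0` and `s = f₁ + f₂ - 2` is
even, at least `K`, and equal to the number of prime factors 7 modulo 8. -/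
noncomputable def good (e a b g K X : ℕ) : Finset ℕ :=
  (fam e a b g X).filter fun m : ℕ => mwRank (A e a b m) (B e a b m) = 0 ∧
    ∃ f₁ f₂ s : ℕ, (Sel (A e a b m) (B e a b m)).ncard = 2 ^ f₁ ∧
      (Sel (-2 * A e a b m) (A e a b m ^ 2 - 4 * B e a b m)).ncard = 2 ^ f₂ ∧
      f₁ + f₂ = s + 2 ∧ s = num7 m ∧ Even s ∧ K ≤ s

/-- The conditions on the base curve `y² = x (x - e a²) (x + e b²)`: the shape of the parameters and
2-isogeny Selmer rank zero. -/
structure Base (e a b g : ℕ) : Prop where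
  squarefree : Squarefree e
  mod_eight : e % 8 = 2 ∨ e % 8 = 5
  a_pos : 0 < a
  b_pos : 0 < b
  coprime : Nat.Coprime a b
  norm : a ^ 2 + b ^ 2 = e * g ^ 2
  sel : (Sel (A e a b 1) (B e a b 1)).ncard = 4
  sel' : (Sel (-2 * A e a b 1) (A e a b 1 ^ 2 - 4 * B e a b 1)).ncard = 1

/-- If the base curve satisfies `Base` and `a ≠ b`, its twists are nonsingular, their `j`-invariant
`256 (a² - 3b)³ / (b² (a² - 4b))` is not an integer, and for every `K` and every `c` below the
product of the `1 - 2 ^ (-i)`, `i ≥ 1`, at least `c` times the number of members up to `X` are good,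
if `X` is large. `Base` holds for `(v² + 4, 2, v, 1)` if `v² + 4` is prime and all primes of `v` are
congruent to 3 modulo 4. -/
theorem result :
    (∀ e a b g : ℕ, Base e a b g → a ≠ b →
      (∀ m : ℕ, 0 < m → B e a b m ≠ 0 ∧ A e a b m ^ 2 - 4 * B e a b m ≠ 0 ∧
        ¬ B e a b m ^ 2 * (A e a b m ^ 2 - 4 * B e a b m) ∣
          256 * (A e a b m ^ 2 - 3 * B e a b m) ^ 3) ∧
      ∀ (K : ℕ) (c : ℝ), c < ∏' i : ℕ, (1 - (1 / 2 : ℝ) ^ (i + 1)) →
        ∀ᶠ X : ℕ in atTop,
          c * ((fam e a b g X).card : ℝ) ≤ ((good e a b g K X).card : ℝ)) ∧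
    ∀ v : ℕ, (∀ q : ℕ, q.Prime → q ∣ v → q % 4 = 3) → (v ^ 2 + 4).Prime →
      Base (v ^ 2 + 4) 2 v 1 := by
  classical
  refine ⟨fun e a b g hB hne => ?_, fun v hv3 hp => ?_⟩
  · have h : Pool.Agent.GNC.Par e a b g :=
      ⟨hB.squarefree, hB.mod_eight.symm, hB.a_pos, hB.b_pos, hB.coprime, hB.norm⟩
    have H : Pool.Agent.GNC.Hyp e a b := ⟨hB.sel, hB.sel'⟩
    have hg : 0 < g := h.g_pos
    have hn0 : e * a * b * g ≠ 0 := by
      have := h.e_pos
      have := hB.a_pos
      have := hB.b_pos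
      positivity
    refine ⟨fun m hm => ⟨Pool.Agent.GNC.bE_ne h hm, Pool.Agent.GNC.disc_ne h hm,
      Pool.Agent.GNC.jinv h hne hm⟩, fun K c hc => ?_⟩
    have hfam : ∀ X : ℕ, fam e a b g X = Pool.Agent.GNC.fam e a b g X := by
      intro X
      ext m
      simp only [fam, Pool.Agent.GNC.fam, Finset.mem_filter, Finset.mem_Ioc, Finset.mem_Icc]
      constructor
      · rintro ⟨⟨h1, h2⟩, h3, h4, h5⟩
        exact ⟨⟨by omega, h2⟩, h1, h3, h4, fun p hp => ⟨(h5 p hp).1,
          fun q hq hqv => (h5 p hp).2 q (Nat.mem_primeFactors.2 ⟨hq, hqv, hn0⟩)⟩⟩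
      · rintro ⟨⟨_, h2⟩, h1, h3, h4, h5⟩
        exact ⟨⟨h1, h2⟩, h3, h4, fun p hp => ⟨(h5 p hp).1,
          fun q hq => (h5 p hp).2 q (Nat.prime_of_mem_primeFactors hq)
            (Nat.dvd_of_mem_primeFactors hq)⟩⟩
    filter_upwards [Pool.Agent.GNC.prop_good h H K c hc] with X hX
    rw [hfam]
    refine hX.trans ?_
    have hsub : ((Pool.Agent.GNC.fam e a b g X).filter (fun m : ℕ =>
        mwRank (Pool.Agent.GNC.aE e a b m) (Pool.Agent.GNC.bE e a b m) = 0 ∧
        K ≤ Pool.Agent.RZ.t7 m ∧ Even (Pool.Agent.RZ.t7 m) ∧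
          (Sel (Pool.Agent.GNC.aE e a b m) (Pool.Agent.GNC.bE e a b m)).ncard =
            2 ^ (Pool.Agent.RZ.t7 m + 2) ∧
          (Sel (-2 * Pool.Agent.GNC.aE e a b m)
            (Pool.Agent.GNC.aE e a b m ^ 2 - 4 * Pool.Agent.GNC.bE e a b m)).ncard = 1)) ⊆
        good e a b g K X := by
      intro m hm
      rw [Finset.mem_filter] at hm
      obtain ⟨h1, h2, h3, h4, h5, h6⟩ := hm
      rw [good, Finset.mem_filter, hfam]
      exact ⟨h1, h2, _, 0, _, h5, by rw [pow_zero]; exact h6, rfl, rfl, h4, h3⟩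
    have h' := Finset.card_le_card hsub
    have h'' : (((Pool.Agent.GNC.fam e a b g X).filter (fun m : ℕ =>
        mwRank (Pool.Agent.GNC.aE e a b m) (Pool.Agent.GNC.bE e a b m) = 0 ∧
        K ≤ Pool.Agent.RZ.t7 m ∧ Even (Pool.Agent.RZ.t7 m) ∧
          (Sel (Pool.Agent.GNC.aE e a b m) (Pool.Agent.GNC.bE e a b m)).ncard =
            2 ^ (Pool.Agent.RZ.t7 m + 2) ∧
          (Sel (-2 * Pool.Agent.GNC.aE e a b m)
            (Pool.Agent.GNC.aE e a b m ^ 2 - 4 * Pool.Agent.GNC.bE e a b m)).ncard = 1)).card : ℝ) ≤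
        ((good e a b g K X).card : ℝ) := by
      exact_mod_cast h'
    convert h'' using 2
  · have hv : v % 2 = 1 := by
      rcases Nat.even_or_odd v with hv | hv
      · exfalso
        obtain ⟨w, hw⟩ := hv
        have h4 : 2 ∣ v ^ 2 + 4 := ⟨2 * w ^ 2 + 2, by rw [hw]; ring⟩
        have := (Nat.prime_dvd_prime_iff_eq Nat.prime_two hp).1 h4
        omega
      · exact Nat.odd_iff.1 hv
    have h : Pool.Agent.NCM.Par v (v ^ 2 + 4) := ⟨hv, hv3, rfl, hp⟩
    have hP := Pool.Agent.GNC.par_ncm h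
    have hH := Pool.Agent.GNC.hyp_ncm h
    exact ⟨hP.sqf, hP.e8.symm, hP.a0, hP.b0, hP.cop, hP.eq, hH.f1, hH.f2⟩

end Pool.Agent.Results.MP_e2b281_nt.ThinFamilyGeneral
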