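import Pool.Agent.RZ.FIN

/-!
# Rank zero with arbitrarily large even 2-isogeny Selmer rank in a thin family

For the squarefree `m = 1 mod 8` all of whose prime factors are 1 or 7 modulo 8, consider
`y² = x³ - 4m² x` (`a = 0`, `b = -4m²`), the congruent number curve of `2m`, and its isogenous curve
(`a' = 0`, `b' = 16m²`). For every `K`, the members for which the Mordell-Weil rank is `0` while the
2-isogeny Selmer rank `s = f₁ + f₂ - 2` is even, at least `K`, and equal to the number of prime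
factors 7 modulo 8, have lower density at least `(1 - 1/2)(1 - 1/4)(1 - 1/8)...` in the family.
-/

namespace Pool.Agent.Results.MP_e2b281_nt.ThinFamilyParity

open Pool.Agent.H23 Filter

/-- The squarefree `m` with `1 < m ≤ X`, `m = 1` modulo 8, all of whose prime factors are 1 or 7
modulo 8. -/
def fam (X : ℕ) : Finset ℕ :=
  (Finset.Ioc 1 X).filter fun m =>
    m % 8 = 1 ∧ Squarefree m ∧ ∀ p ∈ m.primeFactors, p % 8 = 1 ∨ p % 8 = 7

/-- The number of prime factors congruent to 7 modulo 8. -/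
def num7 (m : ℕ) : ℕ := (m.primeFactors.filter fun p => p % 8 = 7).card

open Classical in
/-- Members of the family for which `y² = x³ - 4m² x` has rank `0` and `s = f₁ + f₂ - 2` is even, at
least `K`, and equal to the number of prime factors 7 modulo 8. -/
noncomputable def good (K X : ℕ) : Finset ℕ :=
  (fam X).filter fun m : ℕ => mwRank 0 (-4 * (m : ℤ) ^ 2) = 0 ∧
    ∃ f₁ f₂ s : ℕ, (Sel 0 (-4 * (m : ℤ) ^ 2)).ncard = 2 ^ f₁ ∧
      (Sel 0 (16 * (m : ℤ) ^ 2)).ncard = 2 ^ f₂ ∧ f₁ + f₂ = s + 2 ∧ s = num7 m ∧ Even s ∧ K ≤ s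

/-- For every `K` and every `c` below the product of the `1 - 2 ^ (-i)`, `i ≥ 1`, at least `c` times
the number of members up to `X` are good, if `X` is large. -/
theorem result (K : ℕ) (c : ℝ) (hc : c < ∏' i : ℕ, (1 - (1 / 2 : ℝ) ^ (i + 1))) :
    ∀ᶠ X : ℕ in atTop, c * ((fam X).card : ℝ) ≤ ((good K X).card : ℝ) := by
  classical
  have hfam : ∀ X : ℕ, fam X = Pool.Agent.RZ.famF X := by
    intro X
    ext m
    simp only [fam, Pool.Agent.RZ.famF, Pool.Agent.TLW.FF, Pool.Agent.TLW.F1, Finset.mem_filter,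
      Finset.mem_Ioc, Finset.mem_Icc]
    constructor
    · rintro ⟨⟨h1, h2⟩, h3, h4, h5⟩
      exact ⟨⟨⟨by omega, h2⟩, h4, h5⟩, h1, h3⟩
    · rintro ⟨⟨⟨_, h2⟩, h4, h5⟩, h1, h3⟩
      exact ⟨⟨h1, h2⟩, h3, h4, h5⟩
  filter_upwards [Pool.Agent.RZ.prop_good K c hc] with X hX
  rw [hfam]
  refine hX.trans ?_
  have hsub : ((Pool.Agent.RZ.famF X).filter (fun m : ℕ => mwRank 0 (-4 * (m : ℤ) ^ 2) = 0 ∧
      K ≤ Pool.Agent.RZ.t7 m ∧ Even (Pool.Agent.RZ.t7 m) ∧
        (Sel 0 (-4 * (m : ℤ) ^ 2)).ncard = 2 ^ (Pool.Agent.RZ.t7 m + 2) ∧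
        (Sel 0 (16 * (m : ℤ) ^ 2)).ncard = 1)) ⊆ good K X := by
    intro m hm
    rw [Finset.mem_filter] at hm
    obtain ⟨h1, h2, h3, h4, h5, h6⟩ := hm
    rw [good, Finset.mem_filter, hfam]
    exact ⟨h1, h2, _, 0, _, h5, by rw [h6, pow_zero], rfl, rfl, h4, h3⟩
  have h := Finset.card_le_card hsub
  have h' : (((Pool.Agent.RZ.famF X).filter (fun m : ℕ => mwRank 0 (-4 * (m : ℤ) ^ 2) = 0 ∧
      K ≤ Pool.Agent.RZ.t7 m ∧ Even (Pool.Agent.RZ.t7 m) ∧
        (Sel 0 (-4 * (m : ℤ) ^ 2)).ncard = 2 ^ (Pool.Agent.RZ.t7 m + 2) ∧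
        (Sel 0 (16 * (m : ℤ) ^ 2)).ncard = 1)).card : ℝ) ≤ ((good K X).card : ℝ) := by
    exact_mod_cast h
  convert h' using 2

end Pool.Agent.Results.MP_e2b281_nt.ThinFamilyParity
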